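import Pool.Agent.W8.ST.Stm

/-! Project ST: the operator of reflection and exchange. -/

open scoped ContDiff

namespace Pool.Agent.W788.ST

open Pool.Agent.W8.ST

/-- `jj` as a continuous linear map -/
noncomputable def J : V 4 →L[ℝ] V 4 :=
  ContinuousLinearMap.pi ![-(ContinuousLinearMap.proj (R := ℝ) (φ := fun _ : Fin 4 => ℝ) 0),
    ContinuousLinearMap.proj (R := ℝ) (φ := fun _ : Fin 4 => ℝ) 2,
    ContinuousLinearMap.proj (R := ℝ) (φ := fun _ : Fin 4 => ℝ) 1,
    ContinuousLinearMap.proj (R := ℝ) (φ := fun _ : Fin 4 => ℝ) 3]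

theorem J_apply (x : V 4) : J x = jj x := by
  funext i
  fin_cases i <;> simp [J, jj]

theorem pd_smooth {u : V 4 → ℝ} (hu : ContDiff ℝ ∞ u) (i : Fin 4) : ContDiff ℝ ∞ (pd i u) := by
  have h : ContDiff ℝ ∞ (fderiv ℝ u) := hu.fderiv_right (m := ∞) (by simp)
  exact h.clm_apply contDiff_const

theorem pd_comp {u : V 4 → ℝ} (hu : ContDiff ℝ ∞ u) (i : Fin 4) (x : V 4) :
    pd i (u ∘ jj) x = fderiv ℝ u (jj x) (jj (Pi.single i 1)) := by
  have e : (u ∘ jj) = u ∘ (J : V 4 → V 4) := by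
    funext y
    simp [J_apply]
  unfold pd
  rw [e, fderiv_comp x (hu.differentiable (by simp) _) J.differentiableAt,
    ContinuousLinearMap.fderiv]
  simp [J_apply]

theorem jj_single0 : jj (Pi.single 0 1) = -(Pi.single 0 1 : V 4) := by
  funext i
  fin_cases i <;> simp [jj, Pi.single_apply]

theorem jj_single1 : jj (Pi.single 1 1) = (Pi.single 2 1 : V 4) := by
  funext i
  fin_cases i <;> simp [jj, Pi.single_apply]

theorem jj_single2 : jj (Pi.single 2 1) = (Pi.single 1 1 : V 4) := by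
  funext i
  fin_cases i <;> simp [jj, Pi.single_apply]

theorem jj_single3 : jj (Pi.single 3 1) = (Pi.single 3 1 : V 4) := by
  funext i
  fin_cases i <;> simp [jj, Pi.single_apply]

theorem pd0 {u : V 4 → ℝ} (hu : ContDiff ℝ ∞ u) : pd 0 (u ∘ jj) = -(pd 0 u ∘ jj) := by
  funext x
  rw [pd_comp hu, jj_single0]
  simp [pd]

theorem pd1 {u : V 4 → ℝ} (hu : ContDiff ℝ ∞ u) : pd 1 (u ∘ jj) = pd 2 u ∘ jj := by
  funext x
  rw [pd_comp hu, jj_single1]
  simp [pd]

theorem pd2 {u : V 4 → ℝ} (hu : ContDiff ℝ ∞ u) : pd 2 (u ∘ jj) = pd 1 u ∘ jj := by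
  funext x
  rw [pd_comp hu, jj_single2]
  simp [pd]

theorem pd3 {u : V 4 → ℝ} (hu : ContDiff ℝ ∞ u) : pd 3 (u ∘ jj) = pd 3 u ∘ jj := by
  funext x
  rw [pd_comp hu, jj_single3]
  simp [pd]

theorem pd_neg (i : Fin 4) (w : V 4 → ℝ) : pd i (-w) = -pd i w := by
  funext x
  unfold pd
  rw [fderiv_neg]
  simp

theorem pd00 {u : V 4 → ℝ} (hu : ContDiff ℝ ∞ u) :
    pd 0 (pd 0 (u ∘ jj)) = pd 0 (pd 0 u) ∘ jj := by
  rw [pd0 hu, pd_neg, pd0 (pd_smooth hu 0), neg_neg]

theorem jj_strip {x : V 4} (hx : x ∈ strip 3) : jj x ∈ strip 3 := by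
  unfold strip at *
  simpa [jj] using hx

theorem q_neg (t : ℝ) : q (-t) = (q t)⁻¹ := by
  unfold q
  rw [← Real.exp_neg]
  congr 1
  ring

/-- a function vanishing on the strip has vanishing derivatives along the strip -/
theorem pd3_zero {w : V 4 → ℝ} (hw : ContDiff ℝ ∞ w) (h : ∀ x ∈ strip 3, w x = 0) {x : V 4}
    (hx : x ∈ strip 3) : pd 3 w x = 0 := by
  unfold pd
  have hd : DifferentiableAt ℝ w x := hw.differentiable (by simp) x
  have h1 : HasDerivAt (fun s : ℝ => w (x + s • (Pi.single 3 1 : V 4)))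
      (fderiv ℝ w x (Pi.single 3 1)) 0 := by
    have h2 : HasFDerivAt w (fderiv ℝ w x) (x + (0 : ℝ) • (Pi.single 3 1 : V 4)) := by
      simpa using hd.hasFDerivAt
    have h3 : HasDerivAt (fun s : ℝ => x + s • (Pi.single 3 1 : V 4)) (Pi.single 3 1) 0 := by
      have := ((hasDerivAt_id (0 : ℝ)).smul_const (Pi.single 3 1 : V 4)).const_add x
      simpa using this
    exact h2.comp_hasDerivAt (0 : ℝ) h3
  have h4 : (fun s : ℝ => w (x + s • (Pi.single 3 1 : V 4))) = fun _ => (0 : ℝ) := by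
    funext s
    apply h
    unfold strip at *
    simpa using hx
  rw [h4] at h1
  exact (h1.unique (hasDerivAt_const (0 : ℝ) (0 : ℝ)))

theorem OpJ_proof : OpJ := by
  refine ⟨?_, fun u hu => ⟨pd1 hu, pd2 hu, pd3 hu⟩⟩
  intro sig u hS hz
  obtain ⟨hu, hper, hpde, hbc⟩ := hS
  have h3 : ∀ x ∈ strip 3, pd 3 u x = 0 := by
    rcases hz with hz | hz
    · exact fun x hx => (hz x hx).2
    · exact fun x hx => (hz x hx).2
  have hcomp : ContDiff ℝ ∞ (u ∘ jj) := by
    have e : (u ∘ jj) = u ∘ (J : V 4 → V 4) := by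
      funext y
      simp [J_apply]
    rw [e]
    exact hu.comp J.contDiff
  refine ⟨hcomp, ?_, ?_, ?_⟩
  · intro x hx i
    have hx' := jj_strip hx
    fin_cases i
    · have e : jj (x + Pi.single (Fin.succ (0 : Fin 3)) (2 * Real.pi)) =
          jj x + Pi.single (Fin.succ (1 : Fin 3)) (2 * Real.pi) := by
        funext k
        fin_cases k <;> simp [jj, Pi.single_apply]
      have := hper (jj x) hx' 1
      simp only [Function.comp_apply]
      rw [← this]
      exact congrArg u e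
    · have e : jj (x + Pi.single (Fin.succ (1 : Fin 3)) (2 * Real.pi)) =
          jj x + Pi.single (Fin.succ (0 : Fin 3)) (2 * Real.pi) := by
        funext k
        fin_cases k <;> simp [jj, Pi.single_apply]
      have := hper (jj x) hx' 0
      simp only [Function.comp_apply]
      rw [← this]
      exact congrArg u e
    · have e : jj (x + Pi.single (Fin.succ (2 : Fin 3)) (2 * Real.pi)) =
          jj x + Pi.single (Fin.succ (2 : Fin 3)) (2 * Real.pi) := by
        funext k
        fin_cases k <;> simp [jj, Pi.single_apply]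
      have := hper (jj x) hx' 2
      simp only [Function.comp_apply]
      rw [← this]
      exact congrArg u e
  · intro x hx
    have hx' := jj_strip hx
    have h := hpde (jj x) hx'
    have h33 : pd 3 (pd 3 u) (jj x) = 0 := pd3_zero (pd_smooth hu 3) h3 hx'
    rw [pd00 hu, pd1 hu, pd1 (pd_smooth hu 2), pd2 hu, pd2 (pd_smooth hu 1), pd3 hu,
      pd3 (pd_smooth hu 3)]
    simp only [Function.comp_apply]
    have e0 : (jj x) 0 = -x 0 := by simp [jj]
    rw [e0, q_neg, inv_inv, h33] at h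
    rw [h33]
    linarith
  · intro x hx
    have h := hbc (jj x) (by simpa [jj] using hx)
    have e0 : (jj x) 0 = -x 0 := by simp [jj]
    rw [e0] at h
    rw [pd0 hu]
    simp only [Pi.neg_apply, Function.comp_apply]
    linarith

end Pool.Agent.W788.ST
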